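import Pool.Agent.R441.Tw2

/-!
The value of `S_p` at the primitive twelfth roots of unity for the primes `p ≡ 19 (mod 24)`.
-/

set_option autoImplicit false

namespace Pool.Agent.Results.MP_fa5f9d_nt.TwelfthRoots

open Complex

/-- `S_p(x) = ∏_{k=1}^{(p-1)/2} (x - e^{2πik²/p})` -/
noncomputable def S (p : ℕ) (x : ℂ) : ℂ :=
  ∏ k ∈ Finset.Icc 1 ((p - 1) / 2), (x - Complex.exp (2 * Real.pi * I * (k : ℂ) ^ 2 / p))

open Pool.Agent.R441 Pool.Agent.R441.Q4 in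
/-- For every prime `p ≡ 19 (mod 24)` and all integers `x, y` with `p = (4x)² + 3y²`. -/
theorem result (p : ℕ) (hp : p.Prime) (h24 : p % 24 = 19) (x y : ℤ)
    (hxy : (p : ℤ) = (4 * x) ^ 2 + 3 * y ^ 2) :
    S p (Complex.exp (2 * Real.pi * I / 12)) =
      (-1) ^ (((p : ℤ) - 19) / 24 + x) * (1 + I) * ((1 + (Real.sqrt 3 : ℂ)) / 2) ∧
    S p (Complex.exp (-(2 * Real.pi * I / 12))) =
      (-1) ^ (((p : ℤ) - 19) / 24 + x) * (1 - I) * ((1 + (Real.sqrt 3 : ℂ)) / 2) ∧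
    S p (Complex.exp (2 * Real.pi * I * 5 / 12)) =
      (-1) ^ (((p : ℤ) - 19) / 24 + x) * (1 + I) * ((1 - (Real.sqrt 3 : ℂ)) / 2) ∧
    S p (Complex.exp (-(2 * Real.pi * I * 5 / 12))) =
      (-1) ^ (((p : ℤ) - 19) / 24 + x) * (1 - I) * ((1 - (Real.sqrt 3 : ℂ)) / 2) := by
  have hfact : Fact p.Prime := ⟨hp⟩
  have hS : ∀ x, S p x = Pool.Agent.R441.Q p 1 x := fun x => S_eq (by omega) x
  have hS' : ∀ x, Pool.Agent.R441.S p x = Pool.Agent.R441.Q p 1 x := fun x => S_eq (by omega) x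
  rw [hS, hS, hS, hS]
  obtain ⟨s, hs⟩ : ∃ s : ℂ, s = (Real.sqrt 3 : ℂ) := ⟨_, rfl⟩
  rw [← hs]
  have hs2 : s ^ 2 = 3 := by
    rw [hs]
    norm_cast
    rw [Real.sq_sqrt (by norm_num)]
  have hI : I ^ 2 = -1 := I_sq
  obtain ⟨ζ, hζ⟩ : ∃ ζ : ℂ, ζ = Complex.exp (2 * Real.pi * I / 12) := ⟨_, rfl⟩
  have hprim : IsPrimitiveRoot ζ 12 := by
    have := Complex.isPrimitiveRoot_exp 12 (by norm_num)
    rw [hζ]
    exact_mod_cast this
  have hv : ζ = (s + I) / 2 := by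
    have e1 : (2 * Real.pi * I / 12 : ℂ) = ((Real.pi / 6 : ℝ) : ℂ) * I := by push_cast; ring
    rw [hζ, e1, Complex.exp_mul_I, ← Complex.ofReal_cos, ← Complex.ofReal_sin, Real.cos_pi_div_six,
      Real.sin_pi_div_six, hs]
    push_cast
    ring
  have z2 : ζ ^ 2 = (1 + I * s) / 2 := by
    rw [hv]; linear_combination (1 / 4) * hs2 + (1 / 4) * hI
  have z3 : ζ ^ 3 = I := by
    have : ζ ^ 3 = ζ ^ 2 * ζ := by ring
    rw [this, z2, hv]
    linear_combination (I / 4) * hs2 + (s / 4) * hI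
  have z6 : ζ ^ 6 = -1 := by
    have : ζ ^ 6 = (ζ ^ 3) ^ 2 := by ring
    rw [this, z3, hI]
  have z5 : ζ ^ 5 = (I - s) / 2 := by
    have : ζ ^ 5 = ζ ^ 2 * ζ ^ 3 := by ring
    rw [this, z2, z3]
    linear_combination (s / 2) * hI
  have z11 : ζ ^ 11 = (s - I) / 2 := by
    have : ζ ^ 11 = ζ ^ 6 * ζ ^ 5 := by ring
    rw [this, z5, z6]; ring
  have z9 : ζ ^ 9 = -I := by
    have : ζ ^ 9 = ζ ^ 6 * ζ ^ 3 := by ring
    rw [this, z6, z3]; ring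
  have e5 : Complex.exp (2 * Real.pi * I * 5 / 12) = ζ ^ 5 := by
    rw [hζ, ← Complex.exp_nat_mul]; congr 1; push_cast; ring
  have em1 : Complex.exp (-(2 * Real.pi * I / 12)) = ζ⁻¹ := by rw [hζ, Complex.exp_neg]
  have em5 : Complex.exp (-(2 * Real.pi * I * 5 / 12)) = -ζ := by
    rw [Complex.exp_neg, e5]
    apply inv_eq_of_mul_eq_one_right
    linear_combination -z6
  rw [e5, em1, em5, ← hζ]
  obtain ⟨a1, a2, a3, a4⟩ := tw_alg (p := p) h24 hprim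
  obtain ⟨A, hA⟩ : ∃ A, A = Pool.Agent.R441.Q p 1 ζ := ⟨_, rfl⟩
  rw [← hA] at a1 a2 a3 a4 ⊢
  obtain ⟨W, hW⟩ : ∃ W, W = (1 + I) * (1 + s) / 2 := ⟨_, rfl⟩
  have hW2 : W ^ 2 = I * (2 + s) := by
    rw [hW]
    linear_combination ((1 + I) ^ 2 / 4) * hs2 + ((4 + 2 * s) / 4) * hI
  have z11ne : ζ ^ 11 - 1 ≠ 0 := by
    intro h0
    exact hprim.pow_ne_one_of_pos_of_lt (l := 11) (by norm_num) (by norm_num) (sub_eq_zero.1 h0)
  have z1ne : ζ - 1 ≠ 0 := by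
    intro h0
    have := hprim.pow_ne_one_of_pos_of_lt (l := 1) (by norm_num) (by norm_num)
    rw [pow_one] at this
    exact this (sub_eq_zero.1 h0)
  have hAW : A ^ 2 = W ^ 2 := by
    apply mul_left_cancel₀ z11ne
    rw [a1, hW2, z5, z11]
    linear_combination (-I / 2) * hs2 + ((2 + s) / 2) * hI
  have hε : ∃ ε : ℤ, (ε = 1 ∨ ε = -1) ∧ A = ε * W := by
    rcases sq_eq_sq_iff_eq_or_eq_neg.1 hAW with h | h
    · exact ⟨1, Or.inl rfl, by rw [h]; push_cast; ring⟩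
    · exact ⟨-1, Or.inr rfl, by rw [h]; push_cast; ring⟩
  obtain ⟨ε, hε1, hε2⟩ := hε
  have key := Tw.tw_eps h24 hxy.symm hε1 hζ (by
    rw [hS', ← hA, hε2, z3, hv, hW]
    ring)
  obtain ⟨k, hk⟩ : ∃ k, p / 24 = k := ⟨_, rfl⟩
  rw [hk] at key
  have hε3 : (ε : ℂ) = (-1) ^ (((p : ℤ) - 19) / 24 + x) := by
    have h1 : 2 * (x : ZMod 4) + 2 * (k : ZMod 4) =
        2 * (((((p : ℤ) - 19) / 24 + x : ℤ)) : ZMod 4) := by
      have : ((p : ℤ) - 19) / 24 = (k : ℤ) := by omega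
      rw [this]
      push_cast
      ring
    rw [h1, two_cast] at key
    rw [zsign]
    rcases hε1 with rfl | rfl
    · have h2 : ls 1 = 0 := rfl
      rw [h2] at key
      split_ifs at key ⊢
      · push_cast; rfl
      · exact absurd key (by decide)
    · have h2 : ls (-1) = 2 := rfl
      rw [h2] at key
      split_ifs at key ⊢
      · exact absurd key (by decide)
      · push_cast; rfl
  rw [← hε3]
  have hε4 : (ε : ℂ) ^ 2 = 1 := by
    rcases hε1 with rfl | rfl <;> norm_num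
  have hW0 : W ≠ 0 := by
    intro h0
    rw [h0] at hW2
    have h3 : (2 + s) * (2 - s) = 1 := by linear_combination -hs2
    have h4 : (2 : ℂ) + s ≠ 0 := by
      intro h5; rw [h5, zero_mul] at h3; exact zero_ne_one h3
    have h5 : I * (2 + s) ≠ 0 := mul_ne_zero I_ne_zero h4
    apply h5
    rw [← hW2]; ring
  have hε0 : (ε : ℂ) ≠ 0 := by
    intro h0; rw [h0] at hε4; norm_num at hε4
  have hA0 : A ≠ 0 := by rw [hε2]; exact mul_ne_zero hε0 hW0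
  refine ⟨?_, ?_, ?_, ?_⟩
  · rw [hε2, hW]; ring
  · apply mul_left_cancel₀ hA0
    have h9 : ζ ^ 9 ≠ 0 := pow_ne_zero _ (hprim.ne_zero (by norm_num))
    apply mul_left_cancel₀ (mul_ne_zero z1ne h9)
    have : (ζ - 1) * ζ ^ 9 * (A * Pool.Agent.R441.Q p 1 ζ⁻¹) = ζ + 1 := by rw [← a4]; ring
    rw [this, hε2, z9, hv, hW]
    linear_combination (I * (s + I - 2) * (1 - I ^ 2) * (1 + s) ^ 2 / 8) * hε4 +
      (I * (s + I - 2) * (1 - I ^ 2) / 8 + I / 2) * hs2 +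
      (-I * (s + I - 2) * (4 + 2 * s) / 8 + (s + 2) / 2) * hI
  · apply mul_left_cancel₀ hA0
    rw [a2, z9, hε2, hW]
    linear_combination -((1 + I) ^ 2 * (1 - s ^ 2) / 4) * hε4 + ((1 + I) ^ 2 / 4) * hs2 + (1 / 2) * hI
  · apply mul_left_cancel₀ hA0
    rw [a3, hε2, hW]
    linear_combination -((1 - I ^ 2) * (1 - s ^ 2) / 4) * hε4 + ((1 - I ^ 2) / 4) * hs2 - (1 / 2) * hI

end Pool.Agent.Results.MP_fa5f9d_nt.TwelfthRoots
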